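import Pool.Agent.MWN.StmtsA

set_option autoImplicit false

/-! # Squad MWN, row NGA (helper85) -/

namespace Pool.Agent.MWN.H85

open Pool.Agent.Helper14_MV Pool.Agent.Helper2_MV Pool.Agent.MVO Pool.Agent.MWL Pool.Agent.MWS
  Pool.Agent.MWF

theorem count_fm (f : ℕ → List ℕ) (d : ℕ) : ∀ l : List ℕ, (∀ c ∈ l, c = 0 ∨ c = 1) →
    (l.flatMap f).count d = l.count 0 * (f 0).count d + l.count 1 * (f 1).count d := by
  intro l
  induction l with
  | nil => intro _; simp
  | cons c l ih =>
    intro h
    have h1 := ih (fun x hx => h x (List.mem_cons_of_mem _ hx))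
    rw [List.flatMap_cons, List.count_append, h1]
    rcases h c (List.mem_cons_self ..) with hc | hc
    · subst hc
      rw [List.count_cons_self, List.count_cons_of_ne (by decide : (0 : ℕ) ≠ 1)]
      ring
    · subst hc
      rw [List.count_cons_self, List.count_cons_of_ne (by decide : (1 : ℕ) ≠ 0)]
      ring

theorem asm_hom {k : ℕ} {U V : ℕ → List ℕ} (F : List ℕ → List ℕ)
    (hF : ∀ l l', F (l ++ l') = F l ++ F l') (h : ∀ j ≤ k, F (U j) = F (V j)) :
    F (asm k U) = F (asm k V) := by
  induction k with
  | zero => exact h 0 (le_refl 0)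
  | succ k ih =>
    simp only [asm]
    have e : ∀ l : List ℕ, (k + 2) :: l = [k + 2] ++ l := fun l => rfl
    rw [hF, hF, e (U (k + 1)), e (V (k + 1)), hF [k + 2] (U (k + 1)), hF [k + 2] (V (k + 1)),
      ih (fun j hj => h j (by omega)), h (k + 1) (le_refl _)]

theorem count_mw_le (k : ℕ) (B : ℕ → List ℕ) (c0 : ℕ) (hc0 : NS k c0)
    (hB : ∀ j, ∀ c ∈ B j, c = c0) {t : ℕ} (ht : t ≠ c0) : (asm k B).count t ≤ 1 := by
  have hok : BlkOk k B := by
    intro j _ c hc
    rw [hB j c hc]
    exact hc0
  by_cases hs : 2 ≤ t ∧ t ≤ k + 1
  · rw [count_sep hok hs.1 hs.2]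
  · have hns : NS k t := hs
    rw [count_asm hns]
    have : ∀ j, (B j).count t = 0 := by
      intro j
      rw [List.count_eq_zero]
      intro hm
      exact ht (hB j t hm)
    unfold deg
    simp [this]

/-- the filtered words are equal -/
theorem filt_eq {β : FIC} (hcap : CapP β) {k k1 : ℕ} {a b : ℕ → ℕ} {U V : ℕ → List ℕ}
    (hU : Two01 k1 U) (hV : Two01 k1 V) (hc : ∀ j ≤ k1, ∀ c, (U j).count c = (V j).count c)
    (h0 : 2 ≤ deg k1 (ty U 0)) (h1 : 2 ≤ deg k1 (ty U 1)) (f : ℕ → List ℕ) (p q : List ℕ)
    (hP : PT β k a b (p ++ (asm k1 U).flatMap f ++ q)) :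
    PT β k a b (p ++ (asm k1 V).flatMap f ++ q) := by
  have hns0 : NS k1 0 := fun h => by omega
  have hns1 : NS k1 1 := fun h => by omega
  -- a letter of `f 0` or `f 1` occurs twice
  have htw : ∀ t, t ∈ f 0 ∨ t ∈ f 1 → 2 ≤ (p ++ (asm k1 U).flatMap f ++ q).count t := by
    intro t ht
    have key : ∀ c, 2 ≤ (asm k1 U).count c → t ∈ f c → 2 ≤ ((asm k1 U).flatMap f).count t := by
      intro c hc2 htc
      have hgen : ∀ l : List ℕ, l.count c ≤ (l.flatMap f).count t := by
        intro l
        induction l with
        | nil => simp
        | cons x l ih =>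
          rw [List.flatMap_cons, List.count_append]
          by_cases hx : x = c
          · subst hx
            rw [List.count_cons_self]
            have := List.one_le_count_iff.2 htc
            omega
          · rw [List.count_cons_of_ne hx]
            omega
      exact le_trans hc2 (hgen _)
    have h2 : 2 ≤ ((asm k1 U).flatMap f).count t := by
      rcases ht with ht | ht
      · exact key 0 (by rw [count_asm hns0]; exact h0) ht
      · exact key 1 (by rw [count_asm hns1]; exact h1) ht
    rw [List.count_append, List.count_append]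
    omega
  have hf : ∀ t, t ∈ f 0 ∨ t ∈ f 1 → t = 0 ∨ t = 1 := by
    intro t ht
    by_contra hcon
    push Not at hcon
    have h2 := htw t ht
    have h3 := hcap _ _ hP.1 t
    rw [List.count_filter (by simpa using hcon.2)] at h3
    have h4 : (mw k a).count t ≤ 1 :=
      count_mw_le k _ 0 (fun h => by omega) (fun j c hc => List.eq_of_mem_replicate hc) hcon.1
    omega
  have hfilt : ∀ d : ℕ, (d = 0 ∨ d = 1) →
      (p ++ (asm k1 U).flatMap f ++ q).filter (fun c => decide (c ≠ d)) =
        (p ++ (asm k1 V).flatMap f ++ q).filter (fun c => decide (c ≠ d)) := by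
    intro d hd
    have hF : (((asm k1 U).flatMap f).filter (fun c => decide (c ≠ d))) =
        (((asm k1 V).flatMap f).filter (fun c => decide (c ≠ d))) := by
      refine asm_hom (fun l => (l.flatMap f).filter (fun c => decide (c ≠ d))) ?_ ?_
      · intro l l'
        simp only [List.flatMap_append, List.filter_append]
      · intro j hj
        have hlet : ∀ W : ℕ → List ℕ, Two01 k1 W →
            ((W j).flatMap f).filter (fun c => decide (c ≠ d)) =
              List.replicate (((W j).flatMap f).count (1 - d)) (1 - d) := by
          intro W hW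
          have hall : ∀ x ∈ ((W j).flatMap f).filter (fun c => decide (c ≠ d)), x = 1 - d := by
            intro x hx
            rw [List.mem_filter] at hx
            obtain ⟨hx1, hx2⟩ := hx
            rw [List.mem_flatMap] at hx1
            obtain ⟨c, hcW, hxc⟩ := hx1
            have hc01 := hW j hj c hcW
            have hx01 : x = 0 ∨ x = 1 := by
              apply hf
              rcases hc01 with h | h
              · rw [h] at hxc; exact Or.inl hxc
              · rw [h] at hxc; exact Or.inr hxc
            have hxd : x ≠ d := by simpa using hx2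
            omega
          rw [List.eq_replicate_of_mem hall]
          congr 1
          rw [← List.countP_eq_length_filter]
          have hcc : List.countP (fun c => decide (c ≠ d)) ((W j).flatMap f) =
              List.countP (fun c => c == (1 - d)) ((W j).flatMap f) := by
            apply List.countP_congr
            intro x hx
            rw [List.mem_flatMap] at hx
            obtain ⟨c, hcW, hxc⟩ := hx
            have hc01 := hW j hj c hcW
            have hx01 : x = 0 ∨ x = 1 := by
              apply hf
              rcases hc01 with h | h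
              · rw [h] at hxc; exact Or.inl hxc
              · rw [h] at hxc; exact Or.inr hxc
            simp only [decide_eq_true_eq, beq_iff_eq]
            omega
          rw [hcc]
          rfl
        show ((U j).flatMap f).filter (fun c => decide (c ≠ d)) =
          ((V j).flatMap f).filter (fun c => decide (c ≠ d))
        rw [hlet U hU, hlet V hV, count_fm f _ _ (hU j hj), count_fm f _ _ (hV j hj),
          hc j hj 0, hc j hj 1]
    rw [List.filter_append, List.filter_append, List.filter_append, List.filter_append, hF]
  refine ⟨?_, ?_⟩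
  · rw [← hfilt 1 (Or.inr rfl)]
    exact hP.1
  · rw [← hfilt 0 (Or.inl rfl)]
    exact hP.2

theorem nga : NgaStmt := by
  intro β hcap k k1 a b U V hU hV hc h0 h1
  apply RR_gaml
  intro f p q
  have hc' : ∀ j ≤ k1, ∀ c, (V j).count c = (U j).count c := fun j hj c => (hc j hj c).symm
  have e : ∀ c, deg k1 (ty V c) = deg k1 (ty U c) := by
    intro c
    unfold deg ty
    apply Finset.sum_congr rfl
    intro j hj
    exact hc' j (by rw [Finset.mem_range] at hj; omega) c
  constructor
  · intro h
    exact filt_eq hcap hU hV hc h0 h1 f p q h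
  · intro h
    exact filt_eq hcap hV hU hc' (by rw [e]; exact h0) (by rw [e]; exact h1) f p q h

end Pool.Agent.MWN.H85
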